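import Pool.Agent.Y394.CC.Col

/-!
Graphs of layered treewidth at most 3 without `K_{2,11}` which have no 3-colouring with
clustering `c`.
-/

set_option autoImplicit false

namespace Pool.Agent.Y394.CC

theorem card_layer {N P K m : ℕ} (x : Nd N P K m) (i : ℕ) :
    {v : Vt N P K m | Bag x v ∧ lay v = i}.ncard ≤ 3 := by
  have h := Set.ncard_le_ncard_of_injOn (s := {v : Vt N P K m | Bag x v ∧ lay v = i})
    (t := (Set.univ : Set (Fin 3))) (code x) (fun _ _ => Set.mem_univ _)
    (fun u hu v hv huv => code_inj x i u v hu.1 hv.1 hu.2 hv.2 huv)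
  rw [Set.ncard_univ, Nat.card_eq_fintype_card, Fintype.card_fin] at h
  exact h

/-- For every `c` there is a finite graph of layered treewidth at most 3, without a subgraph
`K_{2,11}`, which has no 3-colouring with clustering `c`. -/
theorem main (c : ℕ) : ∃ (V : Type) (_ : Fintype V) (G : SimpleGraph V) (T : Type) (_ : Fintype T)
    (TT : SimpleGraph T) (B : T → V → Prop) (ℓ : V → ℕ),
    TT.IsTree ∧ (∀ v : V, (TT.induce {x | B x v}).Connected) ∧
    (∀ u v : V, G.Adj u v → ∃ x, B x u ∧ B x v) ∧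
    (∀ u v : V, G.Adj u v → ℓ u ≤ ℓ v + 1 ∧ ℓ v ≤ ℓ u + 1) ∧
    (∀ x i, {v : V | B x v ∧ ℓ v = i}.ncard ≤ 3) ∧
    (∀ t, 11 ≤ t → ∀ φ : Fin 2 ⊕ Fin t → V, Function.Injective φ →
      (∀ x y, G.Adj (φ (.inl x)) (φ (.inr y))) → False) ∧
    ∀ χ : V → Fin 3, ¬ Small G c χ := by
  classical
  let N := c
  let P := c + 1
  let m := c + 2
  let K := m * c + 1
  refine ⟨Vt N P K m, Fintype.ofFinite _, Gr N P K m, Nd N P K m, Fintype.ofFinite _, Tr N P K m,
    Bag, lay, Tr_isTree, bag_connected, bag_edge, lay_adj, card_layer, ?_, ?_⟩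
  · intro t ht φ hφ h
    exact free t ht φ hφ h
  · intro χ
    exact not_small c le_rfl (Nat.lt_succ_self _) (Nat.lt_succ_self _) le_rfl χ

end Pool.Agent.Y394.CC
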