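import Pool.Agent.Y394.CC.Free
import Pool.Agent.H812R5.Hex

/-!
Every 3-colouring has a large monochromatic connected set.
-/

set_option autoImplicit false

namespace Pool.Agent.Y394.CC

open Relation

/-- connectedness from reachability inside the set -/
theorem conn_of_reach {V : Type} (G : SimpleGraph V) (S : Set V) (v : V) (hv : v ∈ S)
    (h : ∀ u ∈ S, ReflTransGen (fun a b => a ∈ S ∧ b ∈ S ∧ (a = b ∨ G.Adj a b)) v u) :
    (G.induce S).Connected := by
  have key : ∀ u : V, ReflTransGen (fun a b => a ∈ S ∧ b ∈ S ∧ (a = b ∨ G.Adj a b)) v u →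
      ∀ hu : u ∈ S, (G.induce S).Reachable ⟨v, hv⟩ ⟨u, hu⟩ := by
    intro u hu
    induction hu with
    | refl => intro _; exact SimpleGraph.Reachable.refl _
    | tail _ h2 ih =>
      intro hu
      obtain ⟨ha, hb, hab⟩ := h2
      rcases hab with rfl | hab
      · exact ih ha
      · refine (ih ha).trans ?_
        have : (G.induce S).Adj ⟨_, ha⟩ ⟨_, hb⟩ := hab
        exact this.reachable
  have : Nonempty S := ⟨⟨v, hv⟩⟩
  exact ⟨fun x y => (key x (h x x.2) x.2).symm.trans (key y (h y y.2) y.2)⟩

/-- a star is connected -/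
theorem conn_star {V : Type} (G : SimpleGraph V) (S : Set V) (v : V) (hv : v ∈ S)
    (h : ∀ u ∈ S, v = u ∨ G.Adj v u) : (G.induce S).Connected :=
  conn_of_reach G S v hv (fun u hu => ReflTransGen.single ⟨hv, hu, h u hu⟩)

/-- the property of a colouring which we refute -/
def Small {V : Type} (G : SimpleGraph V) (c : ℕ) (χ : V → Fin 3) : Prop :=
  ∀ S : Finset V, (∀ u ∈ S, ∀ w ∈ S, χ u = χ w) → (G.induce (S : Set V)).Connected → S.card ≤ c

variable {N P K m : ℕ}

/-- the fan vertex `j :: τ` -/
def yv (j : Ltr N P) (τ : List (Ltr N P)) (h : τ.length < m) : Vt N P K m :=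
  .inl ⟨j :: τ, by simp, by simpa using h⟩

theorem adj_center (τ : List (Ltr N P)) (h : τ.length < m) (x : Fin N × Fin P) :
    (Gr N P K m).Adj (yv none τ h) (yv (some x) τ h) := by
  refine ⟨?_, Or.inl ⟨τ, none, some x, rfl, rfl, Or.inl ⟨rfl, by simp⟩⟩⟩
  simp [yv]

theorem adj_path (τ : List (Ltr N P)) (h : τ.length < m) (a : Fin N) (b b' : Fin P)
    (hb : (b : ℕ) + 1 = b') :
    (Gr N P K m).Adj (yv (some (a, b)) τ h) (yv (some (a, b')) τ h) := by
  refine ⟨?_, Or.inl ⟨τ, _, _, rfl, rfl, Or.inr ⟨a, b, b', rfl, rfl, hb⟩⟩⟩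
  simp only [yv, ne_eq, Sum.inl.injEq, Subtype.mk.injEq, List.cons.injEq, Option.some.injEq,
    Prod.mk.injEq, true_and, and_true]
  intro h
  rw [h] at hb
  omega

/-- all colours occur in every fan -/
theorem fan_colour (c : ℕ) (hN : c ≤ N) (hP : c < P) (χ : Vt N P K m → Fin 3)
    (hχ : Small (Gr N P K m) c χ) (τ : List (Ltr N P)) (h : τ.length < m) :
    ∃ j, χ (yv j τ h) = 0 := by
  classical
  by_contra hno
  push Not at hno
  have hthree : ∀ a b d : Fin 3, a ≠ 0 → b ≠ 0 → d ≠ 0 → a ≠ b → d ≠ b → d = a := by decide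
  -- each path contains a vertex of the colour of the centre
  have hex : ∀ a : Fin N, ∃ b : Fin P, χ (yv (some (a, b)) τ h) = χ (yv none τ h) := by
    intro a
    by_contra hna
    push Not at hna
    have hmono : ∀ b b' : Fin P, χ (yv (some (a, b)) τ h) = χ (yv (some (a, b')) τ h) := by
      intro b b'
      exact hthree _ _ _ (hno _) (hno none) (hno _) (hna b') (hna b)
    let S : Finset (Vt N P K m) := Finset.univ.image (fun b : Fin P => yv (some (a, b)) τ h)
    have hS : S.card = P := by
      rw [Finset.card_image_of_injective, Finset.card_univ, Fintype.card_fin]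
      intro b b' hbb
      simpa [yv] using hbb
    have h1 := hχ S (by
      intro u hu w hw
      simp only [S, Finset.mem_image, Finset.mem_univ, true_and] at hu hw
      obtain ⟨b, rfl⟩ := hu
      obtain ⟨b', rfl⟩ := hw
      exact hmono b b') (by
      have h0 : 0 < P := by omega
      refine conn_of_reach _ _ (yv (some (a, ⟨0, h0⟩)) τ h) (by simp [S]) ?_
      intro u hu
      simp only [S, Finset.coe_image, Finset.coe_univ, Set.image_univ, Set.mem_range] at hu
      obtain ⟨b, rfl⟩ := hu
      have key : ∀ n : ℕ, ∀ hn : n < P, ReflTransGen (fun a b => a ∈ (S : Set (Vt N P K m)) ∧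
          b ∈ (S : Set (Vt N P K m)) ∧ (a = b ∨ (Gr N P K m).Adj a b))
          (yv (some (a, ⟨0, h0⟩)) τ h) (yv (some (a, ⟨n, hn⟩)) τ h) := by
        intro n
        induction n with
        | zero => intro _; exact ReflTransGen.refl
        | succ n ih =>
          intro hn
          refine (ih (by omega)).tail ⟨by simp [S], by simp [S], Or.inr ?_⟩
          exact adj_path τ h a _ _ rfl
      exact key b b.2)
    rw [hS] at h1
    omega
  choose b hb using hex
  let S : Finset (Vt N P K m) := insert (yv none τ h)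
    (Finset.univ.image (fun a : Fin N => yv (some (a, b a)) τ h))
  have hS : S.card = N + 1 := by
    rw [Finset.card_insert_of_notMem, Finset.card_image_of_injective, Finset.card_univ,
      Fintype.card_fin]
    · intro a a' haa
      simp only [yv, Sum.inl.injEq, Subtype.mk.injEq, List.cons.injEq, Option.some.injEq,
        Prod.mk.injEq, and_true] at haa
      exact haa.1
    · simp [yv]
  have hmem : ∀ u ∈ S, u = yv none τ h ∨ ∃ a, u = yv (some (a, b a)) τ h := by
    intro u hu
    simp only [S, Finset.mem_insert, Finset.mem_image, Finset.mem_univ, true_and] at hu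
    rcases hu with hu | ⟨a, hu⟩
    · exact Or.inl hu
    · exact Or.inr ⟨a, hu.symm⟩
  have hc : ∀ u ∈ S, χ u = χ (yv none τ h) := by
    intro u hu
    rcases hmem u hu with rfl | ⟨a, rfl⟩
    · rfl
    · exact hb a
  have h1 := hχ S (fun u hu w hw => (hc u hu).trans (hc w hw).symm) (by
    refine conn_star _ _ (yv none τ h) (by simp [S]) ?_
    intro u hu
    rcases hmem u hu with rfl | ⟨a, rfl⟩
    · exact Or.inl rfl
    · exact Or.inr (adj_center τ h _))
  omega

/-- there is a word all of whose nonempty suffixes have colour 0 -/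
theorem word (c : ℕ) (hN : c ≤ N) (hP : c < P) (χ : Vt N P K m → Fin 3)
    (hχ : Small (Gr N P K m) c χ) (i : ℕ) (hi : i ≤ m) :
    ∃ w : List (Ltr N P), w.length = i ∧
      ∀ (z : List (Ltr N P)) (hz : z ≠ []) (hzm : z.length ≤ m), z <:+ w →
        χ (.inl ⟨z, hz, hzm⟩) = 0 := by
  induction i with
  | zero =>
    refine ⟨[], rfl, ?_⟩
    intro z hz _ hzw
    exact absurd (List.suffix_nil.1 hzw) hz
  | succ i ih =>
    obtain ⟨w, hw, hall⟩ := ih (by omega)
    obtain ⟨j, hj⟩ := fan_colour c hN hP χ hχ w (by omega)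
    refine ⟨j :: w, by simp [hw], ?_⟩
    intro z hz hzm hzw
    rcases List.suffix_cons_iff.1 hzw with h | h
    · subst h
      exact hj
    · exact hall z hz hzm h

/-- there is a grid without colour 0 -/
theorem grid (c : ℕ) (hN : c ≤ N) (hP : c < P) (hK : m * c < K) (χ : Vt N P K m → Fin 3)
    (hχ : Small (Gr N P K m) c χ) :
    ∃ (σ : {w : List (Ltr N P) // w.length = m}) (n : Fin K), ∀ x i : Fin m,
      χ (.inr (σ, n, x, i)) ≠ 0 := by
  classical
  obtain ⟨w, hw, hall⟩ := word c hN hP χ hχ m le_rfl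
  by_contra hno
  push Not at hno
  choose x i hxi using fun n => hno ⟨w, hw⟩ n
  -- many copies have a vertex of colour 0 in the same layer
  have hpig : ∃ l : Fin m, c < ((Finset.univ : Finset (Fin K)).filter (fun n => i n = l)).card := by
    by_contra hcon
    push Not at hcon
    have h1 : (Finset.univ : Finset (Fin K)).card = ∑ l : Fin m,
        ((Finset.univ : Finset (Fin K)).filter (fun n => i n = l)).card :=
      Finset.card_eq_sum_card_fiberwise (fun _ _ => Finset.mem_coe.2 (Finset.mem_univ _))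
    have h2 : ∑ l : Fin m, ((Finset.univ : Finset (Fin K)).filter (fun n => i n = l)).card ≤
        ∑ _l : Fin m, c := Finset.sum_le_sum fun l _ => hcon l
    rw [Finset.sum_const, Finset.card_univ, Fintype.card_fin, smul_eq_mul] at h2
    rw [Finset.card_univ, Fintype.card_fin] at h1
    omega
  obtain ⟨l, hl⟩ := hpig
  set F := (Finset.univ : Finset (Fin K)).filter (fun n => i n = l) with hF
  -- the selected vertex
  let z : List (Ltr N P) := w.drop (m - (l + 1))
  have hzl : z.length = l + 1 := by
    simp only [z, List.length_drop, hw]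
    omega
  have hz0 : z ≠ [] := by
    intro h
    rw [h] at hzl
    simp at hzl
  have hzm : z.length ≤ m := by omega
  have hzw : z <:+ w := List.drop_suffix _ _
  let v : Vt N P K m := .inl ⟨z, hz0, hzm⟩
  let q : Fin K → Vt N P K m := fun n => .inr (⟨w, hw⟩, n, x n, i n)
  let S : Finset (Vt N P K m) := insert v (F.image q)
  have hqinj : Function.Injective q := by
    intro a b hab
    simp only [q, Sum.inr.injEq, Prod.mk.injEq] at hab
    exact hab.2.1
  have hS : S.card = F.card + 1 := by
    rw [Finset.card_insert_of_notMem, Finset.card_image_of_injective _ hqinj]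
    simp [v, q]
  have hmem : ∀ u ∈ S, u = v ∨ ∃ n ∈ F, u = q n := by
    intro u hu
    simp only [S, Finset.mem_insert, Finset.mem_image] at hu
    rcases hu with hu | ⟨n, hn, hu⟩
    · exact Or.inl hu
    · exact Or.inr ⟨n, hn, hu.symm⟩
  have hc : ∀ u ∈ S, χ u = 0 := by
    intro u hu
    rcases hmem u hu with rfl | ⟨n, _, rfl⟩
    · exact hall z hz0 hzm hzw
    · exact hxi n
  have h1 := hχ S (fun u hu w hw => (hc u hu).trans (hc w hw).symm) (by
    refine conn_star _ _ v (by simp [S]) ?_
    intro u hu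
    rcases hmem u hu with rfl | ⟨n, hn, rfl⟩
    · exact Or.inl rfl
    · right
      have hn' : i n = l := by
        simp only [hF, Finset.mem_filter, Finset.mem_univ, true_and] at hn
        exact hn
      refine ⟨by simp [v, q], Or.inl ⟨hzw, ?_⟩⟩
      simp only [hn', hzl])
  omega

/-- the vertex of a grid at a point -/
def pt (hm : 0 < m) (σ : {w : List (Ltr N P) // w.length = m}) (n : Fin K) (p : Fin 2 → ℤ) :
    Vt N P K m :=
  .inr (σ, n, ⟨min (p 0).toNat (m - 1), by omega⟩, ⟨min (p 1).toNat (m - 1), by omega⟩)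

/-- a grid with two colours has a large monochromatic connected set -/
theorem two_colours (c : ℕ) (hm : c + 2 ≤ m) (χ : Vt N P K m → Fin 3)
    (hχ : Small (Gr N P K m) c χ) (σ : {w : List (Ltr N P) // w.length = m}) (n : Fin K)
    (h0 : ∀ x i : Fin m, χ (.inr (σ, n, x, i)) ≠ 0) : False := by
  classical
  have hm0 : 0 < m := by omega
  let e := pt (N := N) (P := P) (K := K) hm0 σ n
  let col : (Fin 2 → ℤ) → Fin 2 := fun p => if χ (e p) = 1 then 0 else 1
  have hcol : ∀ p q, col p = col q → χ (e p) = χ (e q) := by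
    intro p q h
    have h1 : χ (e p) ≠ 0 := h0 _ _
    have h2 : χ (e q) ≠ 0 := h0 _ _
    have : ∀ a b : Fin 3, a ≠ 0 → b ≠ 0 → (if a = 1 then (0 : Fin 2) else 1) =
        (if b = 1 then (0 : Fin 2) else 1) → a = b := by decide
    exact this _ _ h1 h2 h
  obtain ⟨i, s, s', hs, hs', hsi, hsi', hcs, hcs', hpath⟩ :=
    H812R5.Hex.taskHex 2 (m - 1) (by norm_num) (by omega) col
  have hbox : ∀ p, ReflTransGen (H812R5.GStep (m - 1) col i) s p →
      (∀ j, 0 ≤ p j ∧ p j ≤ ((m - 1 : ℕ) : ℤ)) ∧ col p = i := by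
    intro p hp
    induction hp with
    | refl => exact ⟨hs, hcs⟩
    | tail _ h _ => exact ⟨h.1, h.2.2.2⟩
  let S : Finset (Vt N P K m) := (Set.toFinite {u : Vt N P K m | ∃ p, ReflTransGen
    (H812R5.GStep (m - 1) col i) s p ∧ e p = u}).toFinset
  have hS : ∀ u, u ∈ S ↔ ∃ p, ReflTransGen (H812R5.GStep (m - 1) col i) s p ∧ e p = u := by
    intro u
    simp [S]
  have hadj : ∀ p q : Fin 2 → ℤ, (∀ j, 0 ≤ p j ∧ p j ≤ ((m - 1 : ℕ) : ℤ)) →
      (∀ j, 0 ≤ q j ∧ q j ≤ ((m - 1 : ℕ) : ℤ)) → (∀ j, |q j - p j| ≤ 1) →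
      e p = e q ∨ (Gr N P K m).Adj (e p) (e q) := by
    intro p q hp hq hpq
    by_cases he : e p = e q
    · exact Or.inl he
    · right
      have a0 := abs_le.1 (hpq 0)
      have a1 := abs_le.1 (hpq 1)
      have b0 := hp 0
      have b1 := hp 1
      have c0 := hq 0
      have c1 := hq 1
      refine ⟨he, Or.inl ⟨rfl, rfl, ?_, ?_⟩⟩
      · simp only [Near]
        omega
      · simp only [Near]
        omega
  have hconn : ((Gr N P K m).induce (S : Set (Vt N P K m))).Connected := by
    refine conn_of_reach _ _ (e s) ((hS _).2 ⟨s, ReflTransGen.refl, rfl⟩) ?_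
    intro u hu
    obtain ⟨p, hp, rfl⟩ := (hS u).1 hu
    clear hu
    induction hp with
    | refl => exact ReflTransGen.refl
    | @tail a b hab hstep ih =>
      refine ih.tail ⟨(hS _).2 ⟨a, hab, rfl⟩, (hS _).2 ⟨b, hab.tail hstep, rfl⟩, ?_⟩
      exact hadj a b (hbox a hab).1 hstep.1 hstep.2.1
  have hmono : ∀ u ∈ S, ∀ w ∈ S, χ u = χ w := by
    intro u hu w hw
    obtain ⟨p, hp, rfl⟩ := (hS u).1 hu
    obtain ⟨q, hq, rfl⟩ := (hS w).1 hw
    exact hcol p q ((hbox p hp).2.trans (hbox q hq).2.symm)
  -- every height occurs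
  have hivt : ∀ p, ReflTransGen (H812R5.GStep (m - 1) col i) s p → ∀ v : ℤ, 0 ≤ v → v ≤ p i →
      ∃ p', ReflTransGen (H812R5.GStep (m - 1) col i) s p' ∧ p' i = v := by
    intro p hp
    induction hp with
    | refl =>
      intro v hv hv'
      exact ⟨s, ReflTransGen.refl, by omega⟩
    | @tail a b hab hstep ih =>
      intro v hv hv'
      by_cases h : v ≤ a i
      · exact ih v hv h
      · have := abs_le.1 (hstep.2.1 i)
        exact ⟨b, hab.tail hstep, by omega⟩
  have hex : ∀ k : Fin m, ∃ p', ReflTransGen (H812R5.GStep (m - 1) col i) s p' ∧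
      p' i = ((k : ℕ) : ℤ) := fun k => hivt s' hpath _ (by omega) (by rw [hsi']; omega)
  choose g hg hg' using hex
  have hcard : m ≤ S.card := by
    have hinj : Function.Injective (fun k : Fin m => e (g k)) := by
      intro k k' hk
      simp only [e, pt, Sum.inr.injEq, Prod.mk.injEq, true_and, Fin.mk.injEq] at hk
      obtain ⟨hk0, hk1⟩ := hk
      have b0 := (hbox _ (hg k)).1 0
      have b1 := (hbox _ (hg k)).1 1
      have c0 := (hbox _ (hg k')).1 0
      have c1 := (hbox _ (hg k')).1 1
      have d := hg' k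
      have d' := hg' k'
      have : ∀ j : Fin 2, g k j = g k' j := by
        intro j
        fin_cases j
        · simp only [Fin.zero_eta]
          omega
        · simp only [Fin.mk_one]
          omega
      have h3 := this i
      exact Fin.ext (by omega)
    have h4 := Finset.card_le_card_of_injOn (s := (Finset.univ : Finset (Fin m))) (t := S)
      (fun k => e (g k)) (fun k _ => (hS _).2 ⟨g k, hg k, rfl⟩) (hinj.injOn)
    simpa using h4
  have := hχ S hmono hconn
  omega

/-- no 3-colouring has small monochromatic connected sets -/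
theorem not_small (c : ℕ) (hN : c ≤ N) (hP : c < P) (hK : m * c < K) (hm : c + 2 ≤ m)
    (χ : Vt N P K m → Fin 3) : ¬ Small (Gr N P K m) c χ := by
  intro hχ
  obtain ⟨σ, n, h⟩ := grid c hN hP hK χ hχ
  exact two_colours c hm χ hχ σ n h

end Pool.Agent.Y394.CC
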