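import Pool.Agent.Y394.CC.Tree

/-!
The graph: tree of copies of fans, with grids attached.
-/

set_option autoImplicit false

namespace Pool.Agent.Y394.CC

/-- letters: `none` is the centre of a fan, `some (a, b)` the vertex `b` of its path `a` -/
abbrev Ltr (N P : ℕ) : Type := Option (Fin N × Fin P)

/-- the vertices of the fans: nonempty words of length at most `m` -/
abbrev YV (N P m : ℕ) : Type := {w : List (Ltr N P) // w ≠ [] ∧ w.length ≤ m}

/-- the vertices of the grids: word of length `m`, number of the copy, column, layer -/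
abbrev QV (N P K m : ℕ) : Type := {w : List (Ltr N P) // w.length = m} × Fin K × Fin m × Fin m

/-- the vertices -/
abbrev Vt (N P K m : ℕ) : Type := YV N P m ⊕ QV N P K m

/-- the nodes of the tree -/
abbrev Nd (N P K m : ℕ) : Type :=
  {w : List (Ltr N P) // w.length ≤ m} ⊕ ({w : List (Ltr N P) // w.length = m} × Fin K × Fin m)

variable {N P K m : ℕ}

instance : Finite {w : List (Ltr N P) // w.length ≤ m} := List.finite_length_le (Ltr N P) m

instance : Finite {w : List (Ltr N P) // w.length = m} := List.finite_length_eq (Ltr N P) m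

instance : Finite (YV N P m) :=
  Set.Finite.subset (List.finite_length_le (Ltr N P) m) (fun _ h => h.2)

instance : Finite (Vt N P K m) := inferInstance

instance : Finite (Nd N P K m) := inferInstance

/-- adjacency in a fan, one direction: `j` is the centre, or the predecessor on a path -/
def Pre (j j' : Ltr N P) : Prop :=
  (j = none ∧ j' ≠ none) ∨ ∃ (a : Fin N) (b b' : Fin P), j = some (a, b) ∧ j' = some (a, b') ∧
    (b : ℕ) + 1 = b'

/-- nearby numbers -/
def Near (a b : ℕ) : Prop := a ≤ b + 1 ∧ b ≤ a + 1

/-- the adjacency relation (one direction) -/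
def Rel : Vt N P K m → Vt N P K m → Prop
  | .inl w, .inl w' => ∃ (τ : List (Ltr N P)) (j j' : Ltr N P), w.1 = j :: τ ∧ w'.1 = j' :: τ ∧
      Pre j j'
  | .inl w, .inr q => w.1 <:+ q.1.1 ∧ w.1.length = q.2.2.2 + 1
  | .inr _, .inl _ => False
  | .inr q, .inr q' => q.1 = q'.1 ∧ q.2.1 = q'.2.1 ∧ Near q.2.2.1 q'.2.2.1 ∧
      Near q.2.2.2 q'.2.2.2

/-- the graph -/
def Gr (N P K m : ℕ) : SimpleGraph (Vt N P K m) := SimpleGraph.fromRel Rel

/-- the layering -/
def lay : Vt N P K m → ℕ
  | .inl w => w.1.length - 1
  | .inr q => q.2.2.2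

/-- the bags -/
def Bag : Nd N P K m → Vt N P K m → Prop
  | .inl w', .inl w => w.1 <:+ w'.1 ∨ ∃ (τ : List (Ltr N P)) (j j' : Ltr N P), w.1 = j :: τ ∧
      w'.1 = j' :: τ ∧ Pre j j'
  | .inl _, .inr _ => False
  | .inr x, .inl w => w.1 <:+ x.1.1
  | .inr x, .inr q => q.1 = x.1 ∧ q.2.1 = x.2.1 ∧ (q.2.2.1 = x.2.2 ∨ (q.2.2.1 : ℕ) + 1 = x.2.2)

/-- the root -/
def root : Nd N P K m := .inl ⟨[], by simp⟩

/-- the parent -/
def par : Nd N P K m → Nd N P K m
  | .inl ⟨[], h⟩ => .inl ⟨[], h⟩
  | .inl ⟨none :: τ, h⟩ => .inl ⟨τ, by simp at h ⊢; omega⟩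
  | .inl ⟨some (a, b) :: τ, h⟩ => if hb : (b : ℕ) = 0 then .inl ⟨none :: τ, by simpa using h⟩
      else .inl ⟨some (a, ⟨b - 1, by omega⟩) :: τ, by simpa using h⟩
  | .inr (w, n, x) => if hx : (x : ℕ) = 0 then .inl ⟨w.1, w.2.le⟩
      else .inr (w, n, ⟨x - 1, by omega⟩)

/-- the value of a letter -/
def val : Ltr N P → ℕ
  | none => 1
  | some (_, b) => b + 2

/-- the depth -/
def dep : Nd N P K m → ℕ
  | .inl w => (w.1.map val).sum
  | .inr (w, _, x) => (w.1.map val).sum + x + 1

theorem dep_par (x : Nd N P K m) (hx : x ≠ root) : dep (par x) < dep x := by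
  rcases x with ⟨w, hw⟩ | ⟨w, n, x⟩
  · rcases w with _ | ⟨j, τ⟩
    · exact absurd rfl hx
    · rcases j with _ | ⟨a, b⟩
      · simp [par, dep, val]
      · by_cases hb : (b : ℕ) = 0
        · simp [par, dep, val, hb]
        · simp only [par, dep, val, hb, dite_false, List.map_cons, List.sum_cons]
          omega
  · by_cases hx' : (x : ℕ) = 0
    · simp [par, dep, hx']
    · simp only [par, dep, hx', dite_false]
      omega

/-- the tree -/
def Tr (N P K m : ℕ) : SimpleGraph (Nd N P K m) := parentGraph root par

theorem Tr_isTree : (Tr N P K m).IsTree := parentGraph_isTree dep_par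

theorem suffix_par {w : List (Ltr N P)} (y : {w : List (Ltr N P) // w.length ≤ m})
    (hne : w ≠ []) (h : w <:+ y.1) (hy : w ≠ y.1) :
    (Sum.inl y : Nd N P K m) ≠ root ∧ ∃ z, par (Sum.inl y : Nd N P K m) = Sum.inl z ∧ w <:+ z.1 := by
  obtain ⟨y, hy'⟩ := y
  rcases y with _ | ⟨j, τ⟩
  · exact absurd (List.suffix_nil.1 h) hne
  · have h1 : w <:+ τ := by
      rcases List.suffix_cons_iff.1 h with h | h
      · exact absurd h hy
      · exact h
    refine ⟨by simp [root], ?_⟩
    rcases j with _ | ⟨a, b⟩
    · exact ⟨_, rfl, h1⟩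
    · by_cases hb : (b : ℕ) = 0
      · refine ⟨⟨none :: τ, by simpa using hy'⟩, by simp [par, hb], ?_⟩
        exact h1.trans (List.suffix_cons _ _)
      · refine ⟨⟨some (a, ⟨b - 1, by omega⟩) :: τ, by simpa using hy'⟩, by simp [par, hb], ?_⟩
        exact h1.trans (List.suffix_cons _ _)

theorem bag_connected (v : Vt N P K m) : ((Tr N P K m).induce {x | Bag x v}).Connected := by
  rcases v with w | q
  · refine induce_connected dep_par _ (Sum.inl ⟨w.1, w.2.2⟩) (Or.inl (List.suffix_refl _)) ?_
    rintro (y | ⟨σ, n, x⟩) hx hne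
    · rcases hx with hx | ⟨τ, j, j', h1, h2, h3⟩
      · have hy : w.1 ≠ y.1 := fun h => hne (by rw [Sum.inl.injEq]; exact Subtype.ext h.symm)
        obtain ⟨h4, z, h5, h6⟩ := suffix_par (K := K) y w.2.1 hx hy
        refine ⟨h4, ?_⟩
        rw [h5]
        exact Or.inl h6
      · obtain ⟨y, hy⟩ := y
        simp only at h2
        subst h2
        refine ⟨by simp [root], ?_⟩
        rcases h3 with ⟨hj, hj'⟩ | ⟨a, b, b', hj, hj', hb⟩
        · rcases j' with _ | ⟨a, b⟩
          · exact absurd rfl hj'
          · by_cases hb : (b : ℕ) = 0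
            · simp only [par, hb, dite_true]
              left
              rw [h1, hj]
            · simp only [par, hb, dite_false]
              right
              exact ⟨τ, none, _, by rw [h1, hj], rfl, Or.inl ⟨rfl, by simp⟩⟩
        · subst hj'
          have hb0 : (b' : ℕ) ≠ 0 := by omega
          simp only [par, hb0, dite_false]
          left
          rw [h1, hj]
          have : (⟨(b' : ℕ) - 1, by omega⟩ : Fin P) = b := Fin.ext (by simp only; omega)
          simp only [this]
          exact List.suffix_refl _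
    · refine ⟨by simp [root], ?_⟩
      by_cases hx0 : (x : ℕ) = 0
      · simp only [par, hx0, dite_true]
        exact Or.inl hx
      · simp only [par, hx0, dite_false]
        exact hx
  · obtain ⟨σ, n, x, i⟩ := q
    refine induce_connected dep_par _ (Sum.inr (σ, n, x)) ⟨rfl, rfl, Or.inl rfl⟩ ?_
    rintro (y | ⟨σ', n', x'⟩) hx hne
    · exact absurd hx (by simp [Bag])
    · obtain ⟨h1, h2, h3⟩ := hx
      simp only at h1 h2 h3
      subst h1
      subst h2
      rcases h3 with h3 | h3
      · exact absurd (by rw [h3]) hne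
      · refine ⟨by simp [root], ?_⟩
        have hx0 : (x' : ℕ) ≠ 0 := by omega
        simp only [par, hx0, dite_false]
        refine ⟨rfl, rfl, Or.inl (Fin.ext ?_)⟩
        simp only
        omega

theorem bag_edge (u v : Vt N P K m) (h : (Gr N P K m).Adj u v) : ∃ x, Bag x u ∧ Bag x v := by
  have key : ∀ u v : Vt N P K m, Rel u v → ∃ x, Bag x u ∧ Bag x v := by
    rintro (w | q) (w' | q') h
    · obtain ⟨τ, j, j', h1, h2, h3⟩ := h
      exact ⟨Sum.inl ⟨w'.1, w'.2.2⟩, Or.inr ⟨τ, j, j', h1, h2, h3⟩, Or.inl (List.suffix_refl _)⟩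
    · exact ⟨Sum.inr (q'.1, q'.2.1, q'.2.2.1), h.1, rfl, rfl, Or.inl rfl⟩
    · exact h.elim
    · obtain ⟨h1, h2, h3, h4⟩ := h
      rcases lt_trichotomy (q.2.2.1 : ℕ) (q'.2.2.1 : ℕ) with h5 | h5 | h5
      · refine ⟨Sum.inr (q'.1, q'.2.1, q'.2.2.1), ⟨h1, h2, Or.inr ?_⟩, rfl, rfl, Or.inl rfl⟩
        have := h3.2
        simp only
        omega
      · exact ⟨Sum.inr (q'.1, q'.2.1, q'.2.2.1), ⟨h1, h2, Or.inl (Fin.ext h5)⟩, rfl, rfl,
          Or.inl rfl⟩
      · refine ⟨Sum.inr (q.1, q.2.1, q.2.2.1), ⟨rfl, rfl, Or.inl rfl⟩, h1.symm, h2.symm,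
          Or.inr ?_⟩
        have := h3.1
        simp only
        omega
  rcases h.2 with h | h
  · exact key u v h
  · obtain ⟨x, h1, h2⟩ := key v u h
    exact ⟨x, h2, h1⟩

theorem lay_adj (u v : Vt N P K m) (h : (Gr N P K m).Adj u v) :
    lay u ≤ lay v + 1 ∧ lay v ≤ lay u + 1 := by
  have key : ∀ u v : Vt N P K m, Rel u v → lay u ≤ lay v + 1 ∧ lay v ≤ lay u + 1 := by
    rintro (w | q) (w' | q') h
    · obtain ⟨τ, j, j', h1, h2, h3⟩ := h
      simp [lay, h1, h2]
    · obtain ⟨h1, h2⟩ := h
      simp [lay, h2]
    · exact h.elim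
    · exact h.2.2.2
  rcases h.2 with h | h
  · exact key u v h
  · exact (key v u h).symm

/-- two suffixes of the same length are equal -/
theorem suffix_eq {α : Type} {a b l : List α} (ha : a <:+ l) (hb : b <:+ l)
    (h : a.length = b.length) : a = b := by
  rw [List.suffix_iff_eq_drop.1 ha, List.suffix_iff_eq_drop.1 hb, h]

open Classical in
/-- the code of the members of a bag in one layer -/
noncomputable def code (x : Nd N P K m) (v : Vt N P K m) : Fin 3 :=
  match x, v with
  | .inl w', .inl w => if w.1 <:+ w'.1 then 0 else if w.1.head? = some none then 1 else 2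
  | .inl _, .inr _ => 0
  | .inr _, .inl _ => 0
  | .inr x, .inr q => if q.2.2.1 = x.2.2 then 1 else 2

theorem code_inj (x : Nd N P K m) (i : ℕ) (u v : Vt N P K m) (hu : Bag x u) (hv : Bag x v)
    (hui : lay u = i) (hvi : lay v = i) (h : code x u = code x v) : u = v := by
  rcases x with w' | x
  · rcases u with w | q
    · rcases v with z | q'
      · have hl : w.1.length = z.1.length := by
          have h1 : w.1.length - 1 = z.1.length - 1 := hui.trans hvi.symm
          have h2 := List.length_pos_iff.2 w.2.1
          have h3 := List.length_pos_iff.2 z.2.1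
          omega
        rw [Sum.inl.injEq]
        apply Subtype.ext
        by_cases hw : w.1 <:+ w'.1
        · by_cases hz : z.1 <:+ w'.1
          · exact suffix_eq hw hz hl
          · simp only [code, if_pos hw, if_neg hz] at h
            split_ifs at h <;> simp at h
        · by_cases hz : z.1 <:+ w'.1
          · simp only [code, if_pos hz, if_neg hw] at h
            split_ifs at h <;> simp at h
          · rcases hu with hu | ⟨τ, j, j', h1, h2, h3⟩
            · exact absurd hu hw
            rcases hv with hv | ⟨τ', k, k', h4, h5, h6⟩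
            · exact absurd hv hz
            have h7 : j' :: τ = k' :: τ' := h2.symm.trans h5
            rw [List.cons.injEq] at h7
            obtain ⟨h7, h8⟩ := h7
            subst h7 h8
            simp only [code, if_neg hw, if_neg hz] at h
            simp only [h1, h4, List.head?_cons, Option.some.injEq] at h
            rw [h1, h4]
            rcases h3 with ⟨hj, hj'⟩ | ⟨a, b, b', hj, hj', hb⟩
            · subst hj
              rcases h6 with ⟨hk, hk'⟩ | ⟨c, d, d', hk, hk', hd⟩
              · rw [hk]
              · subst hk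
                simp at h
            · subst hj
              rcases h6 with ⟨hk, hk'⟩ | ⟨c, d, d', hk, hk', hd⟩
              · subst hk
                simp at h
              · rw [hj'] at hk'
                rw [Option.some.injEq, Prod.mk.injEq] at hk'
                obtain ⟨rfl, rfl⟩ := hk'
                have : b = d := Fin.ext (by omega)
                rw [hk, this]
      · exact absurd hv (by simp [Bag])
    · exact absurd hu (by simp [Bag])
  · rcases u with w | q
    · rcases v with z | q'
      · have hl : w.1.length = z.1.length := by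
          have h1 : w.1.length - 1 = z.1.length - 1 := hui.trans hvi.symm
          have h2 := List.length_pos_iff.2 w.2.1
          have h3 := List.length_pos_iff.2 z.2.1
          omega
        rw [Sum.inl.injEq]
        exact Subtype.ext (suffix_eq hu hv hl)
      · simp only [code] at h
        split_ifs at h <;> simp at h
    · rcases v with z | q'
      · simp only [code] at h
        split_ifs at h <;> simp at h
      · obtain ⟨h1, h2, h3⟩ := hu
        obtain ⟨h4, h5, h6⟩ := hv
        have h7 : q.2.2.2 = q'.2.2.2 := Fin.ext (hui.trans hvi.symm)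
        have h8 : q.2.2.1 = q'.2.2.1 := by
          simp only [code] at h
          by_cases ha : q.2.2.1 = x.2.2
          · by_cases hb : q'.2.2.1 = x.2.2
            · rw [ha, hb]
            · rw [if_pos ha, if_neg hb] at h
              exact absurd h (by decide)
          · by_cases hb : q'.2.2.1 = x.2.2
            · rw [if_neg ha, if_pos hb] at h
              exact absurd h (by decide)
            · rcases h3 with h3 | h3
              · exact absurd h3 ha
              · rcases h6 with h6 | h6
                · exact absurd h6 hb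
                · exact Fin.ext (by omega)
        rw [Sum.inr.injEq]
        refine Prod.ext (h1.trans h4.symm) (Prod.ext (h2.trans h5.symm) (Prod.ext h8 h7))

end Pool.Agent.Y394.CC
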