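import Pool.Agent.Y394.CC.Defs

/-!
The graph has no `K_{2,11}`.
-/

set_option autoImplicit false

namespace Pool.Agent.Y394.CC

variable {N P K m : ℕ}

open Classical in
/-- the code of the neighbours of a grid vertex -/
noncomputable def codeQ (q : QV N P K m) (v : Vt N P K m) : Option (Fin 3 × Fin 3) :=
  match v with
  | .inl _ => none
  | .inr q' => some (Fin.ofNat 3 (q'.2.2.1 + 1 - q.2.2.1), Fin.ofNat 3 (q'.2.2.2 + 1 - q.2.2.2))

theorem adj_inr_inl {q : QV N P K m} {w : YV N P m} (h : (Gr N P K m).Adj (.inr q) (.inl w)) :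
    w.1 <:+ q.1.1 ∧ w.1.length = q.2.2.2 + 1 := by
  rcases h.2 with h | h
  · exact h.elim
  · exact h

theorem adj_inr_inr {q q' : QV N P K m} (h : (Gr N P K m).Adj (.inr q) (.inr q')) :
    q.1 = q'.1 ∧ q.2.1 = q'.2.1 ∧ Near q.2.2.1 q'.2.2.1 ∧ Near q.2.2.2 q'.2.2.2 := by
  rcases h.2 with h | h
  · exact h
  · exact ⟨h.1.symm, h.2.1.symm, h.2.2.1.symm, h.2.2.2.symm⟩

theorem codeQ_inj (q : QV N P K m) (u v : Vt N P K m) (hu : (Gr N P K m).Adj (.inr q) u)
    (hv : (Gr N P K m).Adj (.inr q) v) (h : codeQ q u = codeQ q v) : u = v := by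
  rcases u with w | q1
  · rcases v with z | q2
    · have h1 := adj_inr_inl hu
      have h2 := adj_inr_inl hv
      rw [Sum.inl.injEq]
      exact Subtype.ext (suffix_eq h1.1 h2.1 (h1.2.trans h2.2.symm))
    · simp [codeQ] at h
  · rcases v with z | q2
    · simp [codeQ] at h
    · obtain ⟨h1, h2, h3, h4⟩ := adj_inr_inr hu
      obtain ⟨g1, g2, g3, g4⟩ := adj_inr_inr hv
      simp only [codeQ, Option.some.injEq, Prod.mk.injEq, Fin.ext_iff, Fin.ofNat] at h
      obtain ⟨k1, k2⟩ := h
      have e1 : (q1.2.2.1 : ℕ) = q2.2.2.1 := by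
        obtain ⟨a, b⟩ := h3
        obtain ⟨c, d⟩ := g3
        rw [Nat.mod_eq_of_lt (by omega), Nat.mod_eq_of_lt (by omega)] at k1
        omega
      have e2 : (q1.2.2.2 : ℕ) = q2.2.2.2 := by
        obtain ⟨a, b⟩ := h4
        obtain ⟨c, d⟩ := g4
        rw [Nat.mod_eq_of_lt (by omega), Nat.mod_eq_of_lt (by omega)] at k2
        omega
      rw [Sum.inr.injEq]
      exact Prod.ext (h1.symm.trans g1) (Prod.ext (h2.symm.trans g2)
        (Prod.ext (Fin.ext e1) (Fin.ext e2)))

/-- the code of the neighbours of a path vertex among the fan vertices -/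
def codeY (b : Fin P) (v : Vt N P K m) : Fin 3 :=
  match v with
  | .inl ⟨none :: _, _⟩ => 0
  | .inl ⟨some (_, b') :: _, _⟩ => if b' < b then 1 else 2
  | _ => 0

theorem adj_inl_inl {w w' : YV N P m} (h : (Gr N P K m).Adj (.inl w) (.inl w')) :
    ∃ (τ : List (Ltr N P)) (j j' : Ltr N P), w.1 = j :: τ ∧ w'.1 = j' :: τ ∧
      (Pre j j' ∨ Pre j' j) := by
  rcases h.2 with ⟨τ, j, j', h1, h2, h3⟩ | ⟨τ, j, j', h1, h2, h3⟩
  · exact ⟨τ, j, j', h1, h2, Or.inl h3⟩
  · exact ⟨τ, j', j, h2, h1, Or.inr h3⟩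

theorem pre_some {a : Fin N} {b : Fin P} {k : Ltr N P}
    (h : Pre (some (a, b)) k ∨ Pre k (some (a, b))) :
    k = none ∨ ∃ b' : Fin P, k = some (a, b') ∧ ((b : ℕ) + 1 = b' ∨ (b' : ℕ) + 1 = b) := by
  rcases h with h | h
  · rcases h with ⟨h1, _⟩ | ⟨c, d, d', h1, h2, h3⟩
    · exact absurd h1 (by simp)
    · rw [Option.some.injEq, Prod.mk.injEq] at h1
      obtain ⟨rfl, rfl⟩ := h1
      exact Or.inr ⟨d', h2, Or.inl h3⟩
  · rcases h with ⟨h1, _⟩ | ⟨c, d, d', h1, h2, h3⟩
    · exact Or.inl h1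
    · rw [Option.some.injEq, Prod.mk.injEq] at h2
      obtain ⟨rfl, rfl⟩ := h2
      exact Or.inr ⟨d, h1, Or.inr h3⟩

theorem codeY_inj (a : Fin N) (b : Fin P) (τ : List (Ltr N P)) (w : YV N P m)
    (hw : w.1 = some (a, b) :: τ) (u v : YV N P m)
    (hu : (Gr N P K m).Adj (.inl w) (.inl u)) (hv : (Gr N P K m).Adj (.inl w) (.inl v))
    (h : codeY b (.inl u : Vt N P K m) = codeY b (.inl v : Vt N P K m)) : u = v := by
  obtain ⟨τ1, j1, k1, h1, h2, h3⟩ := adj_inl_inl hu
  obtain ⟨τ2, j2, k2, g1, g2, g3⟩ := adj_inl_inl hv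
  rw [hw, List.cons.injEq] at h1 g1
  obtain ⟨rfl, rfl⟩ := h1
  obtain ⟨rfl, rfl⟩ := g1
  obtain ⟨u, hu'⟩ := u
  obtain ⟨v, hv'⟩ := v
  simp only at h2 g2
  subst h2
  subst g2
  rw [Subtype.mk.injEq]
  rcases pre_some h3 with rfl | ⟨b1, rfl, hb1⟩
  · rcases pre_some g3 with rfl | ⟨b2, rfl, hb2⟩
    · rfl
    · simp only [codeY] at h
      split_ifs at h <;> simp at h
  · rcases pre_some g3 with rfl | ⟨b2, rfl, hb2⟩
    · simp only [codeY] at h
      split_ifs at h <;> simp at h
    · have : b1 = b2 := by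
        simp only [codeY] at h
        by_cases c1 : b1 < b
        · by_cases c2 : b2 < b
          · rw [Fin.lt_def] at c1 c2
            exact Fin.ext (by omega)
          · rw [if_pos c1, if_neg c2] at h
            exact absurd h (by decide)
        · by_cases c2 : b2 < b
          · rw [if_neg c1, if_pos c2] at h
            exact absurd h (by decide)
          · rw [Fin.lt_def] at c1 c2
            exact Fin.ext (by omega)
      rw [this]

theorem nbrs_inr (q : QV N P K m) (t : ℕ) (f : Fin t → Vt N P K m) (hf : Function.Injective f)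
    (h : ∀ k, (Gr N P K m).Adj (.inr q) (f k)) : t ≤ 10 := by
  have h1 : Function.Injective (fun k => codeQ q (f k)) := fun k k' hk =>
    hf (codeQ_inj q _ _ (h k) (h k') hk)
  have h2 := Fintype.card_le_of_injective _ h1
  simpa using h2

/-- the graph has no `K_{2,11}` -/
theorem free (t : ℕ) (ht : 11 ≤ t) (φ : Fin 2 ⊕ Fin t → Vt N P K m) (hφ : Function.Injective φ)
    (h : ∀ (x : Fin 2) (y : Fin t), (Gr N P K m).Adj (φ (.inl x)) (φ (.inr y))) : False := by
  have hinj : Function.Injective (fun k : Fin t => φ (.inr k)) := fun a b hab =>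
    Sum.inr_injective (hφ hab)
  rcases h0 : φ (.inl 0) with w0 | q0
  · rcases h1 : φ (.inl 1) with w1 | q1
    · have hne : w0 ≠ w1 := by
        intro hw
        rw [hw, ← h1] at h0
        have := hφ h0
        simp at this
      -- the common neighbours are fan vertices
      have hY : ∀ k, ∃ u : YV N P m, φ (.inr k) = .inl u := by
        intro k
        rcases hk : φ (.inr k) with u | q
        · exact ⟨u, rfl⟩
        · exfalso
          have e0 := (h 0 k).symm
          have e1 := (h 1 k).symm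
          rw [hk, h0] at e0
          rw [hk, h1] at e1
          have g0 := adj_inr_inl e0
          have g1 := adj_inr_inl e1
          exact hne (Subtype.ext (suffix_eq g0.1 g1.1 (g0.2.trans g1.2.symm)))
      choose u hu using hY
      have hA0 : ∀ k, (Gr N P K m).Adj (.inl w0) (.inl (u k)) := by
        intro k
        have := h 0 k
        rwa [h0, hu k] at this
      have hA1 : ∀ k, (Gr N P K m).Adj (.inl w1) (.inl (u k)) := by
        intro k
        have := h 1 k
        rwa [h1, hu k] at this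
      have huinj : Function.Injective u := by
        intro a b hab
        apply hinj
        simp only [hu, hab]
      have bound : ∀ w : YV N P m, (∀ k, (Gr N P K m).Adj (.inl w) (.inl (u k))) →
          ∀ a b τ, w.1 = some (a, b) :: τ → False := by
        intro w hA a b τ hw
        have h1 : Function.Injective (fun k => codeY b (.inl (u k) : Vt N P K m)) :=
          fun k k' hk => huinj (codeY_inj a b τ w hw _ _ (hA k) (hA k') hk)
        have h2 := Fintype.card_le_of_injective _ h1
        simp at h2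
        omega
      have k0 : Fin t := ⟨0, by omega⟩
      obtain ⟨τ, j, j', e1, e2, e3⟩ := adj_inl_inl (hA0 k0)
      obtain ⟨τ', i, i', f1, f2, f3⟩ := adj_inl_inl (hA1 k0)
      rcases j with _ | ⟨a, b⟩
      · rcases i with _ | ⟨a, b⟩
        · apply hne
          apply Subtype.ext
          rw [e2, List.cons.injEq] at f2
          rw [e1, f1, f2.2]
        · exact bound w1 hA1 a b τ' f1
      · exact bound w0 hA0 a b τ e1
    · have := nbrs_inr q1 t _ hinj (fun k => by rw [← h1]; exact h 1 k)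
      omega
  · have := nbrs_inr q0 t _ hinj (fun k => by rw [← h0]; exact h 0 k)
    omega

end Pool.Agent.Y394.CC
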