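import Mathlib

/-!
Rooted trees given by a parent function.
-/

set_option autoImplicit false

namespace Pool.Agent.Y394.CC

/-- The graph of a parent function. -/
def parentGraph {T : Type} (r : T) (p : T → T) : SimpleGraph T where
  Adj x y := x ≠ y ∧ ((x ≠ r ∧ p x = y) ∨ (y ≠ r ∧ p y = x))
  symm := ⟨fun _ _ h => ⟨h.1.symm, h.2.symm⟩⟩
  loopless := ⟨fun _ h => h.1 rfl⟩

variable {T : Type} {r : T} {p : T → T} {d : T → ℕ}

theorem parent_adj (hd : ∀ x, x ≠ r → d (p x) < d x) {x : T} (hx : x ≠ r) :
    (parentGraph r p).Adj x (p x) := by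
  refine ⟨?_, Or.inl ⟨hx, rfl⟩⟩
  intro h
  have := hd x hx
  rw [← h] at this
  exact lt_irrefl _ this

/-- A set which is closed under taking parents, down to its top, is connected. -/
theorem induce_connected (hd : ∀ x, x ≠ r → d (p x) < d x) (S : Set T) (t : T) (ht : t ∈ S)
    (h : ∀ x ∈ S, x ≠ t → x ≠ r ∧ p x ∈ S) : ((parentGraph r p).induce S).Connected := by
  have key : ∀ n : ℕ, ∀ x : S, d x = n → ((parentGraph r p).induce S).Reachable x ⟨t, ht⟩ := by
    intro n
    induction n using Nat.strong_induction_on with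
    | _ n ih =>
      intro x hx
      by_cases hxt : (x : T) = t
      · have : x = ⟨t, ht⟩ := Subtype.ext hxt
        rw [this]
      · obtain ⟨hr, hp⟩ := h x x.2 hxt
        have h1 : ((parentGraph r p).induce S).Adj x ⟨p x, hp⟩ := parent_adj hd hr
        have h2 := ih (d (p x)) (by rw [← hx]; exact hd _ hr) ⟨p x, hp⟩ rfl
        exact h1.reachable.trans h2
  have : Nonempty S := ⟨⟨t, ht⟩⟩
  refine ⟨fun x y => (key _ x rfl).trans (key _ y rfl).symm⟩

theorem parentGraph_connected (hd : ∀ x, x ≠ r → d (p x) < d x) :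
    (parentGraph r p).Connected := by
  have key : ∀ n : ℕ, ∀ x : T, d x = n → (parentGraph r p).Reachable x r := by
    intro n
    induction n using Nat.strong_induction_on with
    | _ n ih =>
      intro x hx
      by_cases hxt : x = r
      · rw [hxt]
      · have h1 : (parentGraph r p).Adj x (p x) := parent_adj hd hxt
        exact h1.reachable.trans (ih (d (p x)) (by rw [← hx]; exact hd _ hxt) (p x) rfl)
  have : Nonempty T := ⟨r⟩
  refine ⟨fun x y => (key _ x rfl).trans (key _ y rfl).symm⟩

theorem parentGraph_isTree [Finite T] (hd : ∀ x, x ≠ r → d (p x) < d x) :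
    (parentGraph r p).IsTree := by
  classical
  rw [SimpleGraph.isTree_iff_connected_and_card]
  have hc := parentGraph_connected hd
  refine ⟨hc, le_antisymm ?_ hc.card_vert_le_card_edgeSet_add_one⟩
  let f : {x : T // x ≠ r} → (parentGraph r p).edgeSet :=
    fun x => ⟨s(x.1, p x.1), parent_adj hd x.2⟩
  have hf : Function.Surjective f := by
    rintro ⟨e, he⟩
    induction e using Sym2.ind with
    | _ x y =>
      have he' : (parentGraph r p).Adj x y := he
      rcases he'.2 with ⟨h1, h2⟩ | ⟨h1, h2⟩
      · refine ⟨⟨x, h1⟩, Subtype.ext ?_⟩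
        simp only [f, h2]
      · refine ⟨⟨y, h1⟩, Subtype.ext ?_⟩
        simp only [f, h2]
        exact Sym2.eq_swap
  have h1 := Nat.card_le_card_of_surjective f hf
  have h2 : Nat.card {x : T // x ≠ r} + 1 = Nat.card T := by
    have := Fintype.ofFinite T
    rw [Nat.card_eq_fintype_card, Nat.card_eq_fintype_card, Fintype.card_subtype_compl,
      Fintype.card_subtype_eq]
    have : 0 < Fintype.card T := Fintype.card_pos_iff.2 ⟨r⟩
    omega
  omega

end Pool.Agent.Y394.CC
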